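import Pool.Agent.E8helper73.ZO.Main2

/-!
# A structure theorem and zero-one law for the sign conjecture `C⁺` of noncommutative motives

`C` is a `ℚ`-linear rigid symmetric monoidal category in which the endomorphisms of the unit object are
the rational numbers, `R` is a symmetric monoidal additive functor to finite dimensional super vector
spaces over a field `K`: for example `C = NChow(k)_ℚ` and `R = HP_±` in characteristic zero,
`R = TP_±(-)_{1/p}` in characteristic `p`. Let `M` be an object, for example `M = U(A)` for a smooth
and proper dg category `A`. The endomorphisms of `M ^ n` are the classes in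
`K_0((A ^ n)^op ⊗ A ^ n)_ℚ`. An endomorphism `x` of `M ^ n` is *good* if all its parity components are
algebraic: for each of the `n` factors, the product of `R(x)` and the parity operator of this factor
is the realisation of an endomorphism. If `C⁺(M)` is true, all endomorphisms of all `M ^ n` are good.

**Theorem.** There is an endomorphism `u` of `M` whose product with the parity operator is algebraic
such that

1. for all `n`, an endomorphism `x` of `M ^ n` is numerically equivalent to a good one if and only if
  it is numerically equivalent to `u ^ n ∘ x` (`u ^ n` the `n`-th tensor power of `u`);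
2. `C⁺(M)` is true if and only if `R(1 - u)` is nilpotent;
3. if `1 - u` is not numerically trivial, the good endomorphisms are exponentially rare: put
  `b = dim R(M)`, then `b ≥ 2` and for every `δ > 1 - 1 / (b - 1)` and all large `n` the
  dimension of the space of the good endomorphisms of `M ^ n` modulo numerical equivalence is at most
  `δ ^ n` times the dimension of the space of all endomorphisms modulo numerical equivalence;
4. if `1 - u` is numerically trivial and `C⁺(M)` is false, then for `n ≥ 1` the space of all
  endomorphisms of `M ^ n` modulo numerical equivalence has dimension at most `(b - 2) ^ (2 n)`.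

So there are three cases: `C⁺(M)` is true; or `C⁺(M)` is false and every endomorphism of every
`M ^ n` is numerically equivalent to a good one, but homological and numerical equivalence differ on
`M`, since `1 - u` is numerically trivial and its realisation is not nilpotent; or almost no
endomorphism of `M ^ n` is numerically equivalent to a good one. No conjecture is assumed.

Proof. The endomorphisms of `M` whose product with the parity operator is algebraic form a
two-sided ideal; modulo numerical equivalence it has a unit `u`, a central idempotent. The partial
traces over all factors but one take the product of a good endomorphism with any endomorphism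
into the ideal, so `(1 - u)`, applied in one of the factors, kills the good endomorphisms
numerically. Let `g(n)` be the dimension of the space of the endomorphisms of the `n`-th tensor power
of the piece of `M` cut out by `u`. In `M ^ n` there are `n.choose k` conjugate summands which
contain `k` factors of this piece, so that all endomorphisms have dimension at least the sum of the
numbers `(n.choose k) ^ 2 g(k)`; by the Cauchy-Schwarz inequality for semisimple algebras the good
ones have dimension at most the geometric mean of `g(n)` and this dimension. The realisation of the
piece has dimension at most `b - 2`, since the complement is neither purely even nor purely odd.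
-/

set_option autoImplicit false

open CategoryTheory Limits MonoidalCategory

namespace Pool.Agent.Results.MP_8f22fa_ag.ZeroOneLawH73

open Pool.Agent.Y112.SR Pool.Agent.Y112.KD Pool.Agent.R484.NC Pool.Agent.E8helper73.ZO

universe v u w

/-- **Structure theorem and zero-one law for the sign conjecture.** -/
theorem result {C : Type u} [Category.{v} C] [Preadditive C] [Linear ℚ C] [MonoidalCategory C]
    [MonoidalPreadditive C] [MonoidalLinear ℚ C] [SymmetricCategory C] [RightRigidCategory C]
    (hU : UnitQ C) {K : Type w} [Field K] (R : SuperRealisation C K) (M : C) :
    ∃ u v : M ⟶ M, R.H.map v = R.H.map u ≫ R.par M ∧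
      (∀ (n : ℕ) (x : tp M n ⟶ tp M n), (∃ x', GoodEnd R M n x' ∧ NumZero hU (x - x')) ↔
        NumZero hU (x - x ≫ tpm u n)) ∧
      (R.CPlus M ↔ ∃ k : ℕ, (R.H.map (𝟙 M - u)).hom ^ k = 0) ∧
      (∀ (n : ℕ) (T : Set (tp M n ⟶ tp M n)), Module.Finite ℚ (numSpan hU T)) ∧
      (¬ NumZero hU (𝟙 M - u) → 2 ≤ totalDim R M ∧
        ∀ δ : ℝ, 1 - 1 / ((totalDim R M : ℝ) - 1) < δ → ∃ n₀ : ℕ, ∀ n ≥ n₀,
          (numDim hU {x : tp M n ⟶ tp M n | GoodEnd R M n x} : ℝ) ≤
            δ ^ n * numDim hU (Set.univ : Set (tp M n ⟶ tp M n))) ∧
      (NumZero hU (𝟙 M - u) → ¬ R.CPlus M → ∀ n : ℕ,
        numDim hU (Set.univ : Set (tp M (n + 1) ⟶ tp M (n + 1))) ≤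
          (totalDim R M - 2) ^ (2 * (n + 1))) := by
  obtain ⟨u, v, h1, h2, h3, h4, h5⟩ := main2 hU R M
  refine ⟨u, v, h1, h2, h3, fun n T => fin_numSpan (R := R) hU T, h5, fun hN hC n => ?_⟩
  rw [pow_mul]
  exact h4 hN hC n

end Pool.Agent.Results.MP_8f22fa_ag.ZeroOneLawH73
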