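import Pool.Agent.E8helper91.ZO.Final

/-!
# A zero-one law and a growth criterion for the noncommutative sign conjecture `C⁺`

`C` is a `ℚ`-linear rigid symmetric monoidal category in which the endomorphisms of the unit object
are the rational numbers, for example the category `NChow(k)_ℚ` of noncommutative Chow motives, and
`R` is a symmetric monoidal additive functor to finite dimensional super vector spaces over a field
`K`, for example `HP_±` in characteristic zero and `TP_±(-)_{1/p}` in characteristic `p`. No
conjecture is assumed.

For objects `M`, `N`, let `tw M N n = M ⊗ (M ⊗ (⋯ ⊗ N))` with `n` factors `M`. A morphism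
`P ⟶ tw M N n` is called *good* if for each of the `n` factors `M` the component of its realisation
which is even in this factor is again the realisation of a morphism. Put `b = dim_K R(M)`. The
dimension `numDim S` of a set `S` of morphisms is the dimension over `ℚ` of its image modulo
numerical equivalence.

1. The spaces of morphisms modulo numerical equivalence are finite dimensional.
2. Criterion: `C⁺(M)` holds if and only if for the single exponent `n = 8 b ^ 6` the good
   endomorphisms of the `n`-th tensor power of `M` have dimension at least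
   `b ^ (2 n) / (n + 1) ^ (b ^ 2)` modulo numerical equivalence.
3. If `C⁺(M)` holds then this is true for all `n`.
4. If `C⁺(M)` fails then for all `N` and `n` the good morphisms `tw M N n ⟶ tw M N n` have
   dimension at most `(b √(b² - 1)) ^ n (dim R(N))²`.
5. If `C⁺(M)` holds then for every morphism `tw M P m ⟶ tw M N n` all components with respect to the
   parities in all factors `M` of the source and of the target are algebraic.
6. If the numerical version of `C⁺(M)` holds then every morphism `tw M P m ⟶ tw M N n` is numerically
   equivalent to one as in 5.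
7. If the numerical version holds and `C⁺(M)` fails then there is a numerically trivial endomorphism
   of `M` whose realisation is not zero, and the morphisms `tw M P m ⟶ tw M N n` have dimension at
   most `(b - 2) ^ (m + n) dim R(P) dim R(N)` modulo numerical equivalence.
8. If the numerical version fails then the dimension of the good morphisms `P ⟶ tw M N n` is at most
   `(1 - 1 / b²) ^ (n / 2)` times the geometric mean of the dimensions of the spaces of all
   endomorphisms of `P` and of `tw M N n`; in particular the proportion of the good endomorphisms of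
   `tw M N n` among all endomorphisms is at most `(1 - 1 / b²) ^ (n / 2)`.
-/

set_option autoImplicit false

open CategoryTheory Limits MonoidalCategory

namespace Pool.Agent.Results.MP_8f22fa_ag.ZeroOneLawH91

open Pool.Agent.Y112.SR Pool.Agent.Y112.KD Pool.Agent.E8helper91.ZO

universe v u w

theorem result {C : Type u} [Category.{v} C] [Preadditive C] [Linear ℚ C] [MonoidalCategory C]
    [MonoidalPreadditive C] [MonoidalLinear ℚ C] [SymmetricCategory C] [RightRigidCategory C]
    (hU : UnitQ C) {K : Type w} [Field K] (R : SuperRealisation C K) (M : C) :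
    -- 1. finiteness
    (∀ P Q : C, Module.Finite ℚ ((P ⟶ Q) ⧸ numTriv hU P Q)) ∧
    -- 2. the criterion
    (R.CPlus M ↔ dm R M ^ (2 * (8 * dm R M ^ 6)) ≤
      numDim hU (goodSet R M (𝟙_ C) (tw M (𝟙_ C) (8 * dm R M ^ 6)) (8 * dm R M ^ 6)) *
        (8 * dm R M ^ 6 + 1) ^ (dm R M ^ 2)) ∧
    -- 3. growth
    (R.CPlus M → ∀ n : ℕ, dm R M ^ (2 * n) ≤
      numDim hU (goodSet R M (𝟙_ C) (tw M (𝟙_ C) n) n) * (n + 1) ^ (dm R M ^ 2)) ∧
    -- 4. the gap
    (¬ R.CPlus M → ∀ (N : C) (n : ℕ), numDim hU (goodSet R M N (tw M N n) n) ^ 2 ≤
      (dm R M ^ 2 * (dm R M ^ 2 - 1)) ^ n * dm R N ^ 4) ∧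
    -- 5. all components are algebraic
    (R.CPlus M → ∀ (P N : C) (m n : ℕ) (f : tw M P m ⟶ tw M N n), AllAlg R M P N m n f) ∧
    -- 6. approximation
    (NumCPlus R hU M → ∀ (P N : C) (m n : ℕ) (f : tw M P m ⟶ tw M N n),
      ∃ f' : tw M P m ⟶ tw M N n, AllAlg R M P N m n f' ∧ NumZero hU (f - f')) ∧
    -- 7. the exceptional case
    (NumCPlus R hU M → ¬ R.CPlus M →
      (∃ φ : M ⟶ M, NumZero hU φ ∧ R.H.map φ ≠ 0) ∧ 2 ≤ dm R M ∧
      ∀ (P N : C) (m n : ℕ), numDim hU (Set.univ : Set (tw M P m ⟶ tw M N n)) ≤
        (dm R M - 2) ^ (m + n) * (dm R P * dm R N)) ∧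
    -- 8. exponential decay
    (¬ NumCPlus R hU M → ∀ (P N : C) (n : ℕ),
      numDim hU (goodSet R M N P n) ^ 2 * (dm R M ^ 2) ^ n ≤
        (dm R M ^ 2 - 1) ^ n * (numDim hU (Set.univ : Set (P ⟶ P)) *
          numDim hU (Set.univ : Set (tw M N n ⟶ tw M N n)))) :=
  ⟨finite_quot R hU, criterion R hU M, fun h n => lower R hU h n,
    fun h N n => gap R hU h N n, fun h P N m n f => allAlg_of_cplus R h P N m n f,
    fun h P N m n f => approx R hU h P N m n f, fun h h' => exceptional R hU h h',
    fun h P N n => main_case R hU h P N n⟩

end Pool.Agent.Results.MP_8f22fa_ag.ZeroOneLawH91
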